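import Pool.Agent.Lib.MP_17d4d1_pr.C.Iface

set_option autoImplicit false

/-!
# CRIT: it is enough to look at critical up-sets (MP_17d4d1_pr, three chains)
-/

namespace Pool.Agent.Lib.MP_17d4d1_pr.C.H50

open Finset Pool.Agent.Lib.MP_17d4d1_pr Pool.Agent.Lib.MP_17d4d1_pr.S
open Pool.Agent.Lib.MP_17d4d1_pr.C

/-- The integer indicator. -/
def u (U : P → Bool) (x : P) : ℤ := ((U x).toNat : ℤ)

lemma u_nonneg (U : P → Bool) (x : P) : 0 ≤ u U x := by unfold u; positivity

lemma u_le_one (U : P → Bool) (x : P) : u U x ≤ 1 := by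
  unfold u; cases U x <;> simp

lemma u_true {U : P → Bool} {x : P} (h : U x = true) : u U x = 1 := by simp [u, h]

lemma u_false {U : P → Bool} {x : P} (h : U x = false) : u U x = 0 := by simp [u, h]

lemma up_le {U : P → Bool} (hU : Up U) {x y : P} (h : x ≤ y) : u U x ≤ u U y := by
  cases hx : U x
  · rw [u_false hx]; exact u_nonneg U y
  · rw [u_true hx, u_true (hU x y h hx)]

/-- Closure of `W` relative to `S`. -/
def cl (W S : P → Bool) (x : P) : Bool := decide (∀ s, S s = true → x ≤ s → W s = true)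

lemma cl_up (W S : P → Bool) : Up (cl W S) := by
  intro x y hxy hx
  simp only [cl, decide_eq_true_eq] at hx ⊢
  intro s hs hys
  exact hx s hs (hxy.trans hys)

lemma le_cl {W : P → Bool} (S : P → Bool) (hW : Up W) {x : P} (h : W x = true) :
    cl W S x = true := by
  simp only [cl, decide_eq_true_eq]
  intro s _ hxs
  exact hW x s hxs h

lemma of_cl {W S : P → Bool} {x : P} (h : cl W S x = true) (hS : S x = true) : W x = true := by
  simp only [cl, decide_eq_true_eq] at h
  exact h x hS le_rfl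

lemma cl_cr (W S : P → Bool) : Cr (cl W S) S := by
  intro x hx hmax
  simp only [cl, decide_eq_false_iff_not, not_forall] at hx
  obtain ⟨s, hs, hxs, hWs⟩ := hx
  rcases eq_or_lt_of_le hxs with h | h
  · rw [h]; exact hs
  · exact absurd (of_cl (hmax s h) hs) hWs

/-- The lower of the two other values. -/
def lo (a : Fin 3) : Fin 3 := ![1, 0, 0] a

/-- The upper of the two other values. -/
def hi (a : Fin 3) : Fin 3 := ![2, 2, 1] a

lemma lo_le_hi (a : Fin 3) : lo a ≤ hi a := by revert a; decide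

lemma one_dim (a : Fin 3) (F : Fin 3 → Fin 3 → ℤ) :
    ∑ d ∈ ({1, 2} : Finset (Fin 3)), F (a + d) (a + d + d) =
      F (lo a) (hi a) + F (hi a) (lo a) := by
  have h : ∑ d ∈ ({1, 2} : Finset (Fin 3)), F (a + d) (a + d + d) =
      F (a + 1) (a + 1 + 1) + F (a + 2) (a + 2 + 2) := by
    rw [Finset.sum_pair (by decide)]
  rw [h]
  fin_cases a
  · rfl
  · exact add_comm _ _
  · rfl

lemma sumD (y : P) (G : P → P → ℤ) :
    ∑ d ∈ D, G (y + d) (y + d + d) =
      G (lo y.1, lo y.2.1, lo y.2.2) (hi y.1, hi y.2.1, hi y.2.2) +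
      G (lo y.1, lo y.2.1, hi y.2.2) (hi y.1, hi y.2.1, lo y.2.2) +
      (G (lo y.1, hi y.2.1, lo y.2.2) (hi y.1, lo y.2.1, hi y.2.2) +
      G (lo y.1, hi y.2.1, hi y.2.2) (hi y.1, lo y.2.1, lo y.2.2)) +
      (G (hi y.1, lo y.2.1, lo y.2.2) (lo y.1, hi y.2.1, hi y.2.2) +
      G (hi y.1, lo y.2.1, hi y.2.2) (lo y.1, hi y.2.1, lo y.2.2) +
      (G (hi y.1, hi y.2.1, lo y.2.2) (lo y.1, lo y.2.1, hi y.2.2) +
      G (hi y.1, hi y.2.1, hi y.2.2) (lo y.1, lo y.2.1, lo y.2.2))) := by
  obtain ⟨a, b, c⟩ := y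
  unfold D
  rw [Finset.sum_product]
  have h1 : ∀ d₁ : Fin 3, ∑ e ∈ ({1, 2} : Finset (Fin 3)) ×ˢ ({1, 2} : Finset (Fin 3)),
      G ((a, b, c) + (d₁, e)) ((a, b, c) + (d₁, e) + (d₁, e)) =
      ∑ d₂ ∈ ({1, 2} : Finset (Fin 3)), ∑ d₃ ∈ ({1, 2} : Finset (Fin 3)),
        G (a + d₁, b + d₂, c + d₃) (a + d₁ + d₁, b + d₂ + d₂, c + d₃ + d₃) := by
    intro d₁
    rw [Finset.sum_product]
    rfl
  rw [Finset.sum_congr rfl fun d₁ _ => h1 d₁]
  have h2 : ∀ d₁ d₂ : Fin 3, ∑ d₃ ∈ ({1, 2} : Finset (Fin 3)),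
        G (a + d₁, b + d₂, c + d₃) (a + d₁ + d₁, b + d₂ + d₂, c + d₃ + d₃) =
        G (a + d₁, b + d₂, lo c) (a + d₁ + d₁, b + d₂ + d₂, hi c) +
        G (a + d₁, b + d₂, hi c) (a + d₁ + d₁, b + d₂ + d₂, lo c) := by
    intro d₁ d₂
    exact one_dim c fun s t => G (a + d₁, b + d₂, s) (a + d₁ + d₁, b + d₂ + d₂, t)
  simp only [h2]
  have h3 : ∀ d₁ : Fin 3, ∑ d₂ ∈ ({1, 2} : Finset (Fin 3)),
        (G (a + d₁, b + d₂, lo c) (a + d₁ + d₁, b + d₂ + d₂, hi c) +
        G (a + d₁, b + d₂, hi c) (a + d₁ + d₁, b + d₂ + d₂, lo c)) =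
        (G (a + d₁, lo b, lo c) (a + d₁ + d₁, hi b, hi c) +
        G (a + d₁, lo b, hi c) (a + d₁ + d₁, hi b, lo c)) +
        (G (a + d₁, hi b, lo c) (a + d₁ + d₁, lo b, hi c) +
        G (a + d₁, hi b, hi c) (a + d₁ + d₁, lo b, lo c)) := by
    intro d₁
    exact one_dim b fun s t => G (a + d₁, s, lo c) (a + d₁ + d₁, t, hi c) +
        G (a + d₁, s, hi c) (a + d₁ + d₁, t, lo c)
  simp only [h3]
  exact one_dim a fun s t => (G (s, lo b, lo c) (t, hi b, hi c) +
        G (s, lo b, hi c) (t, hi b, lo c)) +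
        (G (s, hi b, lo c) (t, lo b, hi c) +
        G (s, hi b, hi c) (t, lo b, lo c))

lemma le_triple {a b c a' b' c' : Fin 3} (h1 : a ≤ a') (h2 : b ≤ b') (h3 : c ≤ c') :
    ((a, b, c) : P) ≤ (a', b', c') := ⟨h1, h2, h3⟩

/-- Harris on the cube of the points that differ from `y` in all coordinates. -/
lemma harris {U H : P → Bool} (hU : Up U) (hH : Up H) (y : P) :
    ∑ d ∈ D, u U (y + d) * (u H (y + d + d) - u H (y + d)) ≤ 0 := by
  have key := sumD y fun s t => u U s * (u H t - u H s)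
  rw [key]
  obtain ⟨a, b, c⟩ := y
  simp only
  have ha := lo_le_hi a
  have hb := lo_le_hi b
  have hc := lo_le_hi c
  have m1 : ∀ (K : P → Bool), Up K → ∀ s t : Fin 3, u K (lo a, s, t) ≤ u K (hi a, s, t) :=
    fun K hK s t => up_le hK (le_triple ha le_rfl le_rfl)
  have m2 : ∀ (K : P → Bool), Up K → ∀ s t : Fin 3, u K (s, lo b, t) ≤ u K (s, hi b, t) :=
    fun K hK s t => up_le hK (le_triple le_rfl hb le_rfl)
  have m3 : ∀ (K : P → Bool), Up K → ∀ s t : Fin 3, u K (s, t, lo c) ≤ u K (s, t, hi c) :=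
    fun K hK s t => up_le hK (le_triple le_rfl le_rfl hc)
  have p1 : ∀ s t : Fin 3, 0 ≤ (u U (hi a, s, t) - u U (lo a, s, t)) *
      (u H (hi a, s, t) - u H (lo a, s, t)) := fun s t =>
    mul_nonneg (sub_nonneg.2 (m1 U hU s t)) (sub_nonneg.2 (m1 H hH s t))
  have p2 : ∀ s s' t : Fin 3, 0 ≤ (u U (s, hi b, t) - u U (s, lo b, t)) *
      (u H (s', hi b, t) - u H (s', lo b, t)) := fun s s' t =>
    mul_nonneg (sub_nonneg.2 (m2 U hU s t)) (sub_nonneg.2 (m2 H hH s' t))
  have p3 : ∀ s t s' t' : Fin 3, 0 ≤ (u U (s, t, hi c) - u U (s, t, lo c)) *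
      (u H (s', t', hi c) - u H (s', t', lo c)) := fun s t s' t' =>
    mul_nonneg (sub_nonneg.2 (m3 U hU s t)) (sub_nonneg.2 (m3 H hH s' t'))
  have q1 := p1 (lo b) (lo c)
  have q2 := p1 (lo b) (hi c)
  have q3 := p1 (hi b) (lo c)
  have q4 := p1 (hi b) (hi c)
  have q5 := p2 (lo a) (hi a) (lo c)
  have q6 := p2 (lo a) (hi a) (hi c)
  have q7 := p2 (hi a) (lo a) (lo c)
  have q8 := p2 (hi a) (lo a) (hi c)
  have q9 := p3 (lo a) (lo b) (hi a) (hi b)
  have q10 := p3 (lo a) (hi b) (hi a) (lo b)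
  have q11 := p3 (hi a) (lo b) (lo a) (hi b)
  have q12 := p3 (hi a) (hi b) (lo a) (lo b)
  nlinarith [q1, q2, q3, q4, q5, q6, q7, q8, q9, q10, q11, q12]

/-- Inequality (2) in integers. -/
def B (H : P → Bool) (q : P → ℕ) (U V : P → Bool) : ℤ :=
  ∑ x, u U x * u V x * (q x : ℤ) +
    ∑ x, ∑ d ∈ D, u U x * u V (x + d) * (u H (x + d + d) - u H x - u H (x + d))

lemma A2_iff (H : P → Bool) (q : P → ℕ) (U V : P → Bool) : A2 H q U V ↔ 0 ≤ B H q U V := by
  unfold A2 B u
  rw [← Nat.cast_le (α := ℤ)]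
  push_cast
  simp only [mul_sub, mul_add, Finset.sum_sub_distrib, Finset.sum_add_distrib]
  constructor <;> intro h <;> linarith

lemma three (d : P) : d + (d + d) = 0 := by revert d; decide

lemma dd_mem (d : P) (hd : d ∈ D) : d + d ∈ D := by
  revert d; decide

lemma dddd (d : P) : d + d + (d + d) = d := by revert d; decide

lemma swap (F : P → P → P → ℤ) :
    ∑ x, ∑ d ∈ D, F x (x + d) (x + d + d) = ∑ x, ∑ d ∈ D, F (x + d) x (x + d + d) := by
  rw [Finset.sum_comm, Finset.sum_comm (s := univ) (t := D)]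
  have h1 : ∑ d ∈ D, ∑ x, F (x + d) x (x + d + d) =
      ∑ d ∈ D, ∑ x, F (x + (d + d)) x (x + (d + d) + (d + d)) := by
    refine Finset.sum_nbij' (fun d => d + d) (fun d => d + d) dd_mem dd_mem ?_ ?_ ?_
    · intro d _; exact dddd d
    · intro d _; exact dddd d
    · intro d _
      rw [dddd d]
  rw [h1]
  refine Finset.sum_congr rfl fun d _ => ?_
  have h2 : ∑ x, F (x + (d + d)) x (x + (d + d) + (d + d)) =
      ∑ x, F (x + d + (d + d)) (x + d) (x + d + (d + d) + (d + d)) :=
    (Equiv.sum_comp (Equiv.addRight d)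
      fun x => F (x + (d + d)) x (x + (d + d) + (d + d))).symm
  rw [h2]
  refine Finset.sum_congr rfl fun x _ => ?_
  have e1 : x + d + (d + d) = x := by rw [add_assoc, three, add_zero]
  have e2 : x + (d + d) = x + d + d := by rw [add_assoc]
  rw [e1, e2]

lemma B_symm (H : P → Bool) (q : P → ℕ) (U V : P → Bool) : B H q U V = B H q V U := by
  unfold B
  have h := swap fun x y z => u U x * u V y * (u H z - u H x - u H y)
  rw [h]
  refine congrArg₂ (· + ·) (Finset.sum_congr rfl fun x _ => ?_)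
    (Finset.sum_congr rfl fun x _ => Finset.sum_congr rfl fun d _ => ?_)
  · ring
  · ring

/-- The weight of a point. -/
def w (H : P → Bool) (q : P → ℕ) (U : P → Bool) (y : P) : ℤ :=
  u U y * (q y : ℤ) + ∑ d ∈ D, u U (y + d) * (u H (y + d + d) - u H y - u H (y + d))

lemma B_eq (H : P → Bool) (q : P → ℕ) (U V : P → Bool) :
    B H q U V = ∑ y, u V y * w H q U y := by
  rw [B_symm]
  unfold B w
  rw [← Finset.sum_add_distrib]
  refine Finset.sum_congr rfl fun y _ => ?_
  rw [mul_add, Finset.mul_sum]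
  refine congrArg₂ (· + ·) ?_ (Finset.sum_congr rfl fun d _ => ?_)
  · ring
  · ring

lemma w_le {H : P → Bool} {q : P → ℕ} (hH : Up H) (hq : ∀ x, H x = false → q x = 0)
    {U : P → Bool} (hU : Up U) (y : P) (h : ¬ (U y = true ∧ H y = true)) : w H q U y ≤ 0 := by
  unfold w
  cases hHy : H y
  · rw [hq y hHy, u_false hHy]
    have := harris hU hH y
    simp only [Nat.cast_zero, mul_zero, zero_add, sub_zero]
    exact this
  · have hUy : U y = false := by
      cases hh : U y
      · rfl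
      · exact absurd ⟨hh, hHy⟩ h
    rw [u_false hUy, u_true hHy, zero_mul, zero_add]
    refine Finset.sum_nonpos fun d _ => ?_
    have h1 := u_nonneg U (y + d)
    have h2 := u_le_one H (y + d + d)
    have h3 := u_nonneg H (y + d)
    exact mul_nonpos_of_nonneg_of_nonpos h1 (by linarith)

lemma B_mono {H : P → Bool} {q : P → ℕ} (hH : Up H) (hq : ∀ x, H x = false → q x = 0)
    {U V V' : P → Bool} (hU : Up U) (h1 : ∀ y, V y = true → V' y = true)
    (h2 : ∀ y, V' y = true → U y = true → H y = true → V y = true) :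
    B H q U V' ≤ B H q U V := by
  rw [B_eq, B_eq]
  refine Finset.sum_le_sum fun y _ => ?_
  cases hV : V y
  · cases hV' : V' y
    · rw [u_false hV, u_false hV']
    · rw [u_false hV, u_true hV', zero_mul, one_mul]
      refine w_le hH hq hU y fun ⟨hu, hh⟩ => ?_
      rw [h2 y hV' hu hh] at hV
      exact absurd hV (by decide)
  · rw [u_true hV, u_true (h1 y hV)]

theorem crit : CRIT_S := by
  intro hK H hH
  obtain ⟨q, hq, hA1, hA2⟩ := hK H hH
  refine ⟨q, ?_, ?_⟩
  · intro W hW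
    have h := hA1 (cl W H) (cl_up W H) (cl_cr W H)
    unfold A1 at h ⊢
    have e : ∀ x, H x = true → cl W H x = W x := by
      intro x hx
      cases hWx : W x
      · cases hc : cl W H x
        · rfl
        · rw [of_cl hc hx] at hWx; exact absurd hWx (by decide)
      · exact le_cl H hW hWx
    have e1 : ∑ x, (cl W H x).toNat * q x = ∑ x, (W x).toNat * q x := by
      refine Finset.sum_congr rfl fun x _ => ?_
      cases hx : H x
      · rw [hq x hx, mul_zero, mul_zero]
      · rw [e x hx]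
    have e2 : ∑ x, (cl W H x).toNat * (H x).toNat = ∑ x, (W x).toNat * (H x).toNat := by
      refine Finset.sum_congr rfl fun x _ => ?_
      cases hx : H x
      · simp
      · rw [e x hx]
    have e3 : ∑ x, ∑ d ∈ D, (W x).toNat * (H (x + d)).toNat ≤
        ∑ x, ∑ d ∈ D, (cl W H x).toNat * (H (x + d)).toNat := by
      refine Finset.sum_le_sum fun x _ => Finset.sum_le_sum fun d _ => ?_
      refine Nat.mul_le_mul_right _ ?_
      cases hWx : W x
      · simp
      · rw [le_cl H hW hWx]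
    rw [e1, e2] at h
    omega
  · intro U V hU hV
    rw [A2_iff]
    set V' : P → Bool := cl V fun x => U x && H x with hV'
    set U' : P → Bool := cl U fun x => V' x && H x with hU'
    have hV'up : Up V' := cl_up _ _
    have hU'up : Up U' := cl_up _ _
    have hUU' : ∀ y, U y = true → U' y = true := fun y hy => le_cl _ hU hy
    have hVV' : ∀ y, V y = true → V' y = true := fun y hy => le_cl _ hV hy
    have c1 : Cr V' U := fun x hx hm => by
      have := cl_cr V (fun x => U x && H x) x hx hm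
      simp only [Bool.and_eq_true] at this
      exact this.1
    have c2 : Cr V' H := fun x hx hm => by
      have := cl_cr V (fun x => U x && H x) x hx hm
      simp only [Bool.and_eq_true] at this
      exact this.2
    have c3 : Cr U' V' := fun x hx hm => by
      have := cl_cr U (fun x => V' x && H x) x hx hm
      simp only [Bool.and_eq_true] at this
      exact this.1
    have c4 : Cr U' H := fun x hx hm => by
      have := cl_cr U (fun x => V' x && H x) x hx hm
      simp only [Bool.and_eq_true] at this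
      exact this.2
    have c5 : Cr V' U' := fun x hx hm => hUU' x (c1 x hx hm)
    have h0 := (A2_iff H q U' V').1 (hA2 U' V' hU'up hV'up c3 c5 c4 c2)
    have s1 : B H q U V' ≤ B H q U V := by
      refine B_mono hH hq hU hVV' fun y hy hu hh => ?_
      exact of_cl hy (by simp [hu, hh])
    have s2 : B H q V' U' ≤ B H q V' U := by
      refine B_mono hH hq hV'up hUU' fun y hy hv hh => ?_
      exact of_cl hy (by simp [hv, hh])
    rw [B_symm H q U' V'] at h0
    rw [B_symm H q V' U] at s2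
    linarith

end Pool.Agent.Lib.MP_17d4d1_pr.C.H50
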